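import Pool.Agent.H35.RadFinal

set_option autoImplicit false
set_option linter.unusedSectionVars false

/-!
A quantitative form of the main inequality: in dimension `n = p ^ 4 * 4 ^ (p ^ 4)` the product of
the two Rademacher averages exceeds `C n` for a `C` that is linear in `p`.
-/

namespace Pool.Agent.RadSub

open Finset MeasureTheory
open scoped ENNReal
open Pool.Agent.H35

variable {n N : ℕ}

/-- The main inequality in matrix form, with explicit dimension and explicit constant. -/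
theorem main_matrix_rate (C : ℝ) (p : ℕ)
    (hp : (2 : ℝ) ^ 22 * (336 * (|C| + 1) + 2) < (p : ℝ))
    (m n N' : ℕ) (hm : m = p ^ 4) (hn : n = m * 4 ^ m) (hN' : N' = n * m) :
    ∃ (g : Fin (2 * N') → Fin n → ℝ), (∀ i, g i ∈ cube n) ∧
    ∀ (U W : Matrix (Fin n) (Fin n) ℝ), |U.det| * |W.det| = 1 →
    ∀ h2 : (Fin n → Bool) → ℝ, (∀ x, Ng g x ≤ 1 → ∀ ε, pair (W.mulVec x) ε ≤ h2 ε) →
      C * n < avg (fun ε => Ng g (Usg U ε)) * avg h2 := by
  have hp2 : (2 : ℝ) < p := by
    have : 0 ≤ |C| := abs_nonneg C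
    linarith
  have hp2' : 2 < p := by exact_mod_cast hp2
  have hm2 : 2 ≤ m := by
    rw [hm]
    calc 2 ≤ p := hp2'.le
      _ = p ^ 1 := (pow_one p).symm
      _ ≤ p ^ 4 := Nat.pow_le_pow_right (by omega) (by norm_num)
  have hn1 : 1 ≤ n := by
    rw [hn]
    have h4 : 1 ≤ 4 ^ m := Nat.one_le_pow _ _ (by norm_num)
    calc 1 ≤ 2 * 1 := by norm_num
      _ ≤ m * 4 ^ m := by gcongr
  have hn0 : (0 : ℝ) < n := by exact_mod_cast hn1
  set s : ℝ := (p : ℝ) ^ 3 * 2 ^ m with hs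
  have hs0 : 0 < s := by positivity
  have hs1 : 1 ≤ s := by
    have h1 : (1 : ℝ) ≤ (p : ℝ) ^ 3 := one_le_pow₀ (by linarith)
    have h2 : (1 : ℝ) ≤ 2 ^ m := one_le_pow₀ (by norm_num)
    nlinarith
  have hs4 : s ^ 4 = m * n ^ 2 := by
    rw [hs, hn, hm]
    push_cast
    have e : (4 : ℝ) ^ (p ^ 4) = (2 ^ (p ^ 4)) ^ 2 := by
      rw [← pow_mul, mul_comm, pow_mul]; norm_num
    rw [e]
    ring
  obtain ⟨g, hg, hgood, hvol⟩ := exists_good m n N' hn hN' hm2 s hs4 hs0
  refine ⟨g, hg, ?_⟩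
  intro U W hdet h2 hh
  set a : ℝ := (1 / 2 ^ 22) * m * 2 ^ m with ha
  have han : a ≤ n := by
    rw [ha, hn]
    push_cast
    have h1 : (2 : ℝ) ^ m ≤ 4 ^ m := pow_le_pow_left₀ (by norm_num) (by norm_num) m
    have h2 : (0 : ℝ) < m := by exact_mod_cast (by omega : 0 < m)
    calc (1 / 2 ^ 22) * (m : ℝ) * 2 ^ m ≤ 1 * m * 4 ^ m := by
          gcongr
          norm_num
      _ = m * 4 ^ m := by ring
  -- the key comparison a - 1 > 336 |C| s
  have h2m : (1 : ℝ) ≤ 2 ^ m := one_le_pow₀ (by norm_num)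
  have hp3 : (1 : ℝ) ≤ (p : ℝ) ^ 3 := one_le_pow₀ (by linarith)
  have hcomp : 336 * s * (|C| + 1) + 1 < a - 1 + 1 := by
    have e1 : a = (1 / 2 ^ 22) * p * s := by rw [ha, hs, hm]; push_cast; ring
    rw [e1]
    have h3 : 336 * (|C| + 1) + 2 < (1 / 2 ^ 22) * p := by
      rw [div_mul_eq_mul_div, one_mul, lt_div_iff₀ (by positivity)]
      linarith
    nlinarith
  have hC0 : 0 ≤ |C| := abs_nonneg C
  have ha1 : 0 < a - 1 := by nlinarith
  -- the determinant scale
  have hdetU : 0 < |U.det| := by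
    rcases (abs_nonneg U.det).eq_or_lt with h | h
    · rw [← h, zero_mul] at hdet
      norm_num at hdet
    · exact h
  set d : ℝ := |U.det| ^ ((n : ℝ)⁻¹) with hd
  have hd0 : 0 < d := Real.rpow_pos_of_pos hdetU _
  have hdn : d ^ n = |U.det| := Real.rpow_inv_natCast_pow hdetU.le (by omega)
  have hU1 : |(d⁻¹ • U).det| = 1 := by
    rw [Matrix.det_smul, Fintype.card_fin, abs_mul, abs_pow, abs_of_pos (inv_pos.mpr hd0), inv_pow,
      hdn, inv_mul_cancel₀ hdetU.ne']
  have hA1 := net_argument hn1 g hg a han hgood _ hU1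
  have hA2 : avg (fun ε => Ng g (Usg (d⁻¹ • U) ε)) = d⁻¹ * avg (fun ε => Ng g (Usg U ε)) := by
    rw [← avg_const_mul]
    congr 1
    funext ε
    have : Usg (d⁻¹ • U) ε = d⁻¹ • Usg U ε := by
      funext j
      simp only [Usg, Matrix.smul_apply, smul_eq_mul, Pi.smul_apply, mul_sum, mul_assoc]
    rw [this, Ng_smul, abs_of_pos (inv_pos.mpr hd0)]
  rw [hA2, lt_inv_mul_iff₀ hd0] at hA1
  set A := avg (fun ε => Ng g (Usg U ε)) with hA
  have hApos : 0 < A := lt_of_le_of_lt (by positivity) hA1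
  by_contra hcon
  rw [not_lt] at hcon
  -- bound on avg h2
  set b : ℝ := (|C| + 1) * n / A with hb
  have hb0 : 0 < b := by positivity
  have hbb : avg h2 ≤ b := by
    rw [hb, le_div_iff₀ hApos]
    have : C * n ≤ (|C| + 1) * n := by
      have := le_abs_self C
      gcongr
      linarith
    linarith
  have hdual := dual_bound hn1 g s hs1 W h2 hh b hb0 hbb
  have hW0 : 0 < |W.det| := by
    rcases (abs_nonneg W.det).eq_or_lt with h | h
    · rw [← h, mul_zero] at hdet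
      norm_num at hdet
    · exact h
  have h3 : ENNReal.ofReal (|W.det| * (1 / 16) ^ n) ≤ ENNReal.ofReal ((21 * s * b / n) ^ n) := by
    rw [ENNReal.ofReal_mul hW0.le]
    exact (mul_le_mul' le_rfl hvol.le).trans hdual
  rw [ENNReal.ofReal_le_ofReal_iff (by positivity)] at h3
  have h4 : (1 / 16 : ℝ) ^ n ≤ (21 * s * b / n * d) ^ n := by
    rw [mul_pow, hdn]
    calc (1 / 16 : ℝ) ^ n = (|W.det| * (1 / 16) ^ n) * |U.det| := by
          rw [mul_right_comm, mul_comm |W.det|, hdet, one_mul]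
      _ ≤ (21 * s * b / n) ^ n * |U.det| := by gcongr
  have h5 : (1 / 16 : ℝ) ≤ 21 * s * b / n * d :=
    le_of_pow_le_pow_left₀ (by omega) (by positivity) h4
  have h6 : 21 * s * b / n * d = 21 * s * (|C| + 1) * (d / A) := by
    rw [hb]
    field_simp
  have h7 : d / A ≤ 1 / (a - 1) := by
    rw [div_le_div_iff₀ hApos ha1]
    linarith
  have h8 : (1 / 16 : ℝ) ≤ 21 * s * (|C| + 1) * (1 / (a - 1)) := by
    rw [h6] at h5
    exact h5.trans (by gcongr)
  have h9 : a - 1 ≤ 336 * s * (|C| + 1) := by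
    rw [mul_one_div, le_div_iff₀ ha1] at h8
    linarith
  nlinarith

end Pool.Agent.RadSub
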