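import Pool.Agent.RadSub.Main

set_option autoImplicit false

/-!
Transfer from matrices to linear isomorphisms onto Euclidean space with the norm `Ng g`
(the argument of `Pool.Agent.S04938`, stated for use in other files).
-/

namespace Pool.Agent.RadSub

open Pool.Agent.H35

/-- The form of the main inequality for linear isomorphisms of Euclidean space. -/
theorem iso_form (C : ℝ) (n N : ℕ) (g : Fin N → Fin n → ℝ)
    (hg : ∀ (U W : Matrix (Fin n) (Fin n) ℝ), |U.det| * |W.det| = 1 →
      ∀ h2 : (Fin n → Bool) → ℝ, (∀ x, Ng g x ≤ 1 → ∀ ε, pair (W.mulVec x) ε ≤ h2 ε) →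
      C * n < avg (fun ε => Ng g (Usg U ε)) * avg h2)
    (u : EuclideanSpace ℝ (Fin n) ≃ₗ[ℝ] (Fin n → ℝ))
    (e η : OrthonormalBasis (Fin n) ℝ (EuclideanSpace ℝ (Fin n)))
    (h2 : (Fin n → Bool) → ℝ)
    (hh2 : ∀ x, Ng g x ≤ 1 → ∀ ε : Fin n → Bool,
      inner ℝ (∑ i, (if ε i then (1:ℝ) else -1) • η i) (u.symm x) ≤ h2 ε) :
    C * (n : ℝ) < ((∑ ε : Fin n → Bool,
          Ng g (∑ i, (if ε i then (1:ℝ) else -1) • u (e i))) / 2 ^ n) *
      ((∑ ε : Fin n → Bool, h2 ε) / 2 ^ n) := by
  classical
  set U : Matrix (Fin n) (Fin n) ℝ := Matrix.of fun j i => (u (e i)) j with hU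
  set W : Matrix (Fin n) (Fin n) ℝ :=
    Matrix.of fun i j => inner ℝ (η i) (u.symm (Pi.single j (1:ℝ))) with hW
  -- expansion of a vector in the standard basis
  have hexp : ∀ x : Fin n → ℝ, x = ∑ j, x j • (Pi.single j (1:ℝ) : Fin n → ℝ) := by
    intro x
    ext k
    simp [Finset.sum_apply, Pi.single_apply]
  have hinner : ∀ (v : EuclideanSpace ℝ (Fin n)) (x : Fin n → ℝ), inner ℝ v (u.symm x)
      = ∑ j, x j * inner ℝ v (u.symm (Pi.single j (1:ℝ))) := by
    intro v x
    conv_lhs => rw [hexp x]
    simp only [map_sum, map_smul, inner_sum, inner_smul_right]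
  have hWU : W * U = η.toBasis.toMatrix e := by
    ext i k
    rw [Matrix.mul_apply, Module.Basis.toMatrix_apply]
    simp only [hW, hU, Matrix.of_apply]
    have h1 := hinner (η i) (u (e k))
    rw [LinearEquiv.symm_apply_apply] at h1
    rw [OrthonormalBasis.coe_toBasis_repr_apply, OrthonormalBasis.repr_apply_apply, h1]
    exact Finset.sum_congr rfl fun j _ => mul_comm _ _
  have hdet : |U.det| * |W.det| = 1 := by
    rw [mul_comm, ← abs_mul, ← Matrix.det_mul, hWU, ← Module.Basis.det_apply]
    rcases η.det_to_matrix_orthonormalBasis_real e with h | h <;> rw [h] <;> simp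
  have hh : ∀ x, Ng g x ≤ 1 → ∀ ε, pair (W.mulVec x) ε ≤ h2 ε := by
    intro x hx ε
    have hval : pair (W.mulVec x) ε
        = inner ℝ (∑ i, (if ε i then (1:ℝ) else -1) • η i) (u.symm x) := by
      rw [sum_inner]
      unfold pair
      refine Finset.sum_congr rfl fun i _ => ?_
      rw [real_inner_smul_left, hinner]
      simp only [Matrix.mulVec, dotProduct, hW, Matrix.of_apply, sg]
      congr 1
      exact Finset.sum_congr rfl fun j _ => mul_comm _ _
    rw [hval]
    exact hh2 x hx ε
  have key := hg U W hdet h2 hh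
  have e1 : avg (fun ε => Ng g (Usg U ε)) = (∑ ε : Fin n → Bool,
          Ng g (∑ i, (if ε i then (1:ℝ) else -1) • u (e i))) / 2 ^ n := by
    unfold avg
    rw [Fintype.card_fin]
    congr 1
    refine Finset.sum_congr rfl fun ε _ => ?_
    simp only
    congr 1
    funext j
    simp only [Usg, hU, Matrix.of_apply, sg]
    simp only [Finset.sum_apply, Pi.smul_apply, smul_eq_mul]
    exact Finset.sum_congr rfl fun i _ => mul_comm _ _
  have e2 : avg h2 = (∑ ε : Fin n → Bool, h2 ε) / 2 ^ n := by
    unfold avg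
    rw [Fintype.card_fin]
  rw [e1, e2] at key
  exact key

/-- The embedding of `ℝ^n` in `ℝ^(n+K)` by the coordinates and the functionals `g i`. -/
noncomputable def embed {n K : ℕ} (g : Fin K → Fin n → ℝ) : (Fin n → ℝ) →ₗ[ℝ] (Fin (n + K) → ℝ)
    where
  toFun x := Fin.append x (fun i => ∑ j, x j * g i j)
  map_add' x y := by
    funext k
    refine Fin.addCases (fun i => ?_) (fun i => ?_) k
    · simp
    · simp [add_mul, Finset.sum_add_distrib]
  map_smul' c x := by
    funext k
    refine Fin.addCases (fun i => ?_) (fun i => ?_) k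
    · simp
    · simp [Finset.mul_sum, mul_assoc]

lemma embed_apply {n K : ℕ} (g : Fin K → Fin n → ℝ) (x : Fin n → ℝ) :
    embed g x = Fin.append x (fun i => ∑ j, x j * g i j) := rfl

lemma embed_injective {n K : ℕ} (g : Fin K → Fin n → ℝ) : Function.Injective (embed g) := by
  intro x y h
  funext j
  have := congrFun h (Fin.castAdd K j)
  simpa [embed_apply] using this

lemma norm_embed {n K : ℕ} (g : Fin K → Fin n → ℝ) (x : Fin n → ℝ) :
    ‖embed g x‖ = Ng g x := by
  apply le_antisymm
  · rw [pi_norm_le_iff_of_nonneg (Ng_nonneg g x)]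
    intro k
    refine Fin.addCases (fun i => ?_) (fun i => ?_) k
    · simpa [embed_apply] using abs_coord_le_Ng g x i
    · simpa [embed_apply] using abs_inner_le_Ng g x i
  · apply Ng_le g x _ (norm_nonneg _)
    · intro j
      have := norm_le_pi_norm (embed g x) (Fin.castAdd K j)
      simpa [embed_apply] using this
    · intro i
      have := norm_le_pi_norm (embed g x) (Fin.natAdd n i)
      simpa [embed_apply] using this

end Pool.Agent.RadSub
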